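import Pool.Agent.W836.SH.Stm

set_option autoImplicit false

open scoped Classical

namespace Pool.Agent.W135.SH.A

open Pool.Agent.W836.SH
open Matrix

/-- matrix with first row `v` and other rows `R` -/
def NN {k : ℕ} (v : Fin (k + 1) → ℝ) (R : Fin k → Fin (k + 1) → ℝ) :
    Matrix (Fin (k + 1)) (Fin (k + 1)) ℝ := Matrix.of (Fin.cons v R)

lemma NN_zero {k : ℕ} (v : Fin (k + 1) → ℝ) (R : Fin k → Fin (k + 1) → ℝ) (j : Fin (k + 1)) :
    NN v R 0 j = v j := rfl

lemma NN_succ {k : ℕ} (v : Fin (k + 1) → ℝ) (R : Fin k → Fin (k + 1) → ℝ) (i : Fin k)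
    (j : Fin (k + 1)) : NN v R i.succ j = R i j := rfl

lemma det_sgn {k : ℕ} (v : Fin (k + 1) → ℝ) (R : Fin k → Fin (k + 1) → ℝ) (s : Fin k → ℝ) :
    (NN v (fun i j => s i * R i j)).det = (∏ i, s i) * (NN v R).det := by
  have h := Matrix.det_mul_column (Fin.cons 1 s : Fin (k + 1) → ℝ) (NN v R)
  rw [Fin.prod_univ_succ] at h
  simp only [Fin.cons_zero, Fin.cons_succ, one_mul] at h
  rw [← h]
  congr 1
  ext i j
  refine Fin.cases ?_ (fun i => ?_) i
  · simp [NN_zero]
  · simp [NN_succ]

lemma det_const {k : ℕ} (c : ℝ) (R : Fin k → Fin (k + 1) → ℝ) :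
    (NN (fun _ => c) R).det = c * (NN (fun _ => 1) R).det := by
  have h := Matrix.det_mul_column (Fin.cons c (fun _ => 1) : Fin (k + 1) → ℝ)
    (NN (fun _ => 1) R)
  rw [Fin.prod_univ_succ] at h
  simp only [Fin.cons_zero, Fin.cons_succ, Finset.prod_const_one, mul_one] at h
  rw [← h]
  congr 1
  ext i j
  refine Fin.cases ?_ (fun i => ?_) i
  · simp [NN_zero]
  · simp [NN_succ]

lemma det_shift {k : ℕ} (R : Fin k → Fin (k + 1) → ℝ) (c : Fin k → ℝ) :
    (NN (fun _ => 1) R).det = (NN (fun _ => 1) (fun i j => R i j - c i)).det := by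
  refine Matrix.det_eq_of_forall_row_eq_smul_add_const (Fin.cons 0 c : Fin (k + 1) → ℝ) 0 rfl ?_
  intro i j
  refine Fin.cases ?_ (fun i => ?_) i
  · simp [NN_zero]
  · simp [NN_succ, NN_zero]

lemma upd {k : ℕ} (v w : Fin (k + 1) → ℝ) (R : Fin k → Fin (k + 1) → ℝ) :
    (NN v R).updateRow 0 w = NN w R := by
  ext i j
  refine Fin.cases ?_ (fun i => ?_) i
  · rw [Matrix.updateRow_self]; rfl
  · rw [Matrix.updateRow_ne (Fin.succ_ne_zero i)]; rfl

lemma det_key {k : ℕ} (v : Fin (k + 1) → ℝ) (R : Fin k → Fin (k + 1) → ℝ)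
    (l : Fin (k + 1) → ℝ) (h : ∀ i, ∑ j, R i j * l j = 0) (j : Fin (k + 1)) :
    (NN v R).det * l j = (∑ j, v j * l j) * (NN (Pi.single j 1) R).det := by
  have h1 : (NN v R).adjugate *ᵥ ((NN v R) *ᵥ l) = (NN v R).det • l := by
    rw [Matrix.mulVec_mulVec, Matrix.adjugate_mul, Matrix.smul_mulVec, Matrix.one_mulVec]
  have h2 : (NN v R) *ᵥ l = (∑ j, v j * l j) • (Pi.single 0 1 : Fin (k + 1) → ℝ) := by
    funext i
    refine Fin.cases ?_ (fun i => ?_) i
    · simp [Matrix.mulVec, dotProduct, NN_zero]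
    · simp [Matrix.mulVec, dotProduct, NN_succ, h i]
  rw [h2, Matrix.mulVec_smul] at h1
  have h3 := congrFun h1 j
  simp only [Pi.smul_apply, smul_eq_mul] at h3
  rw [← h3, Matrix.mulVec_single_one]
  congr 1
  rw [Matrix.col_apply, Matrix.adjugate_apply, upd]

lemma det_lin {k : ℕ} (v : Fin (k + 1) → ℝ) (R : Fin k → Fin (k + 1) → ℝ)
    (l : Fin (k + 1) → ℝ) (h : ∀ i, ∑ j, R i j * l j = 0) (hl : ∑ j, l j = 1) :
    (NN v R).det = (∑ j, v j * l j) * (NN (fun _ => 1) R).det := by
  obtain ⟨j, hj⟩ : ∃ j, l j ≠ 0 := by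
    by_contra hc
    push Not at hc
    simp [hc] at hl
  have h1 := det_key v R l h j
  have h2 := det_key (fun _ => 1) R l h j
  simp only [one_mul, hl] at h2
  rw [← h2] at h1
  apply mul_right_cancel₀ hj
  rw [h1]
  ring

section
variable {ι : Type}

/-- the new centre -/
noncomputable def o' (I : Finset ι) (o : ι → ℝ) (i : ι) : ℝ :=
  if i ∈ I then (if o i ≤ 1 / 2 then o i else 1 - o i) else 0

/-- the sign -/
noncomputable def sg (o : ι → ℝ) (i : ι) : ℝ := if o i ≤ 1 / 2 then 1 else -1

/-- the set of a column -/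
noncomputable def Sx (I : Finset ι) (o : ι → ℝ) (x : ι → ℝ) : Finset ι :=
  I.filter (fun i => (o i ≤ 1 / 2 ∧ x i = 1 - o i) ∨ (¬ o i ≤ 1 / 2 ∧ x i = -(o i)))

lemma sg_abs (o : ι → ℝ) (i : ι) : |sg o i| = 1 := by
  unfold sg
  split_ifs <;> simp

lemma val {I : Finset ι} {X : Finset (ι → ℝ)} {o : ι → ℝ} (hs : SuppOn I X)
    (hv : ∀ i ∈ I, ∀ x ∈ X, x i = -(o i) ∨ x i = 1 - o i) {x : ι → ℝ} (hx : x ∈ X) (i : ι) :
    x i = sg o i * ((if i ∈ Sx I o x then 1 else 0) - o' I o i) := by
  by_cases hi : i ∈ I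
  · unfold sg o'
    rw [if_pos hi]
    by_cases ho : o i ≤ 1 / 2
    · rw [if_pos ho, if_pos ho]
      by_cases hm : i ∈ Sx I o x
      · rw [if_pos hm]
        have := (Finset.mem_filter.mp hm).2
        rcases this with h | h
        · rw [h.2]; ring
        · exact absurd ho h.1
      · rw [if_neg hm]
        rcases hv i hi x hx with h | h
        · rw [h]; ring
        · exact absurd (Finset.mem_filter.mpr ⟨hi, Or.inl ⟨ho, h⟩⟩) hm
    · rw [if_neg ho, if_neg ho]
      by_cases hm : i ∈ Sx I o x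
      · rw [if_pos hm]
        have := (Finset.mem_filter.mp hm).2
        rcases this with h | h
        · exact absurd h.1 ho
        · rw [h.2]; ring
      · rw [if_neg hm]
        rcases hv i hi x hx with h | h
        · exact absurd (Finset.mem_filter.mpr ⟨hi, Or.inr ⟨ho, h⟩⟩) hm
        · rw [h]; ring
  · have hm : i ∉ Sx I o x := fun h => hi (Finset.mem_filter.mp h).1
    unfold o'
    rw [if_neg hm, if_neg hi, hs x hx i hi]
    ring

/-- the property `PA` for sets -/
lemma PAF {I : Finset ι} {X : Finset (ι → ℝ)} {o : ι → ℝ} {τ : ℝ} (hs : SuppOn I X)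
    (hv : ∀ i ∈ I, ∀ x ∈ X, x i = -(o i) ∨ x i = 1 - o i) (hPA : PA τ X) {k : ℕ}
    (r : Fin k → ι) (S : Fin (k + 1) → Finset ι) (hS : ∀ j, S j ∈ X.image (Sx I o))
    (v : Fin (k + 1) → ℝ) (hvv : ∀ j, v j = τ ∨ v j = τ - 1) :
    |(NN v (fun i j => (if r i ∈ S j then (1 : ℝ) else 0) - o' I o (r i))).det| ≤ 1 := by
  have hS' : ∀ j, ∃ x ∈ X, Sx I o x = S j := fun j => Finset.mem_image.mp (hS j)
  choose x hx hxS using hS'
  have h1 := hPA k r x v hx hvv
  have h2 : (Matrix.of (Fin.cons v (fun i j => x j (r i))) :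
      Matrix (Fin (k + 1)) (Fin (k + 1)) ℝ) =
      NN v (fun i j => sg o (r i) * ((if r i ∈ S j then (1 : ℝ) else 0) - o' I o (r i))) := by
    unfold NN
    congr 2
    funext i j
    rw [val hs hv (hx j) (r i), hxS j]
  rw [h2, det_sgn, abs_mul, Finset.abs_prod] at h1
  simpa only [sg_abs, Finset.prod_const_one, one_mul] using h1

lemma im_det {k : ℕ} (I : Finset ι) (o : ι → ℝ) (r : Fin k → ι) (S : Fin (k + 1) → Finset ι) :
    (IM r S).det =
      (NN (fun _ => 1) (fun i j => (if r i ∈ S j then (1 : ℝ) else 0) - o' I o (r i))).det :=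
  det_shift _ _

end

theorem main (h1 : S_AFAM) : S_A := by
  intro ι I X o τ hτ hτ2 hPA hs hv ho
  have hinj : Set.InjOn (Sx I o) (X : Set (ι → ℝ)) := by
    intro x hx y hy hxy
    funext i
    rw [val hs hv hx i, val hs hv hy i, hxy]
  have hcard : (X.image (Sx I o)).card = X.card := Finset.card_image_of_injOn hinj
  rw [← hcard]
  refine h1 ι I (X.image (Sx I o)) (o' I o) τ hτ hτ2 ⟨?_, ?_, ?_⟩ ?_ ?_
  · -- FW
    intro k r S l hS hl hl1 hdet
    have hz : ∀ i, ∑ j, ((if r i ∈ S j then (1 : ℝ) else 0) - o' I o (r i)) * l j = 0 := by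
      intro i
      simp only [sub_mul, Finset.sum_sub_distrib]
      rw [← Finset.mul_sum, hl1, mul_one, sub_eq_zero, ← hl i]
      exact Finset.sum_congr rfl fun j _ => mul_comm _ _
    have hp := PAF hs hv hPA r S hS (fun j => if 0 < l j then τ - 1 else τ) (fun j => by
      by_cases h : 0 < l j
      · right; simp [h]
      · left; simp [h])
    rw [det_lin _ _ l hz hl1, abs_mul, ← im_det, hdet, mul_one] at hp
    have he : ∑ j, (if 0 < l j then τ - 1 else τ) * l j =
        -(1 - τ) - ∑ j, max (-(l j)) 0 := by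
      have : ∀ j, (if 0 < l j then τ - 1 else τ) * l j = -(1 - τ) * l j - max (-(l j)) 0 := by
        intro j
        by_cases h : 0 < l j
        · rw [if_pos h, max_eq_right (by linarith)]; ring
        · rw [if_neg h, max_eq_left (by linarith)]; ring
      rw [Finset.sum_congr rfl fun j _ => this j, Finset.sum_sub_distrib, ← Finset.mul_sum, hl1]
      ring
    rw [he] at hp
    have := (abs_le.mp hp).1
    linarith
  · -- FV
    intro k r S hS
    have hp := PAF hs hv hPA r S hS (fun _ => τ - 1) (fun _ => Or.inr rfl)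
    rw [det_const, abs_mul, ← im_det] at hp
    have h2 : |τ - 1| = 1 - τ := by rw [abs_of_neg (by linarith)]; ring
    rw [h2] at hp
    by_contra hc
    push Not at hc
    nlinarith
  · -- FSQ
    intro a i j S00 S10 S01 S11 h00 h10 h01 h11 p00 p10 p01 p11
    have hp := PAF hs hv hPA ![a, i, j] ![S00, S10, S01, S11] (by
      intro t
      fin_cases t <;> assumption) ![τ, τ - 1, τ - 1, τ] (by
      intro t
      fin_cases t <;> simp)
    have key : ∀ κ : ℝ, (if j ∈ S00 then (1 : ℝ) else 0) - o' I o j = κ →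
        (if j ∈ S10 then (1 : ℝ) else 0) - o' I o j = κ →
        (if j ∈ S01 then (1 : ℝ) else 0) - o' I o j = κ →
        (if j ∈ S11 then (1 : ℝ) else 0) - o' I o j = κ → |κ| ≤ 1 / 2 := by
      intro κ e1 e2 e3 e4
      have hd : (NN ![τ, τ - 1, τ - 1, τ] (fun t u =>
          (if ![a, i, j] t ∈ ![S00, S10, S01, S11] u then (1 : ℝ) else 0) -
            o' I o (![a, i, j] t))) =
          !![τ, τ - 1, τ - 1, τ;
            0 - o' I o a, 1 - o' I o a, 0 - o' I o a, 1 - o' I o a;
            0 - o' I o i, 0 - o' I o i, 1 - o' I o i, 1 - o' I o i;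
            κ, κ, κ, κ] := by
        ext t u
        refine Fin.cases ?_ (fun t => ?_) t
        · rw [NN_zero]; fin_cases u <;> rfl
        · rw [NN_succ]
          fin_cases t
          · fin_cases u
            · show (if a ∈ S00 then (1 : ℝ) else 0) - o' I o a = 0 - o' I o a
              rw [if_neg p00.1]
            · show (if a ∈ S10 then (1 : ℝ) else 0) - o' I o a = 1 - o' I o a
              rw [if_pos p10.1]
            · show (if a ∈ S01 then (1 : ℝ) else 0) - o' I o a = 0 - o' I o a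
              rw [if_neg p01.1]
            · show (if a ∈ S11 then (1 : ℝ) else 0) - o' I o a = 1 - o' I o a
              rw [if_pos p11.1]
          · fin_cases u
            · show (if i ∈ S00 then (1 : ℝ) else 0) - o' I o i = 0 - o' I o i
              rw [if_neg p00.2]
            · show (if i ∈ S10 then (1 : ℝ) else 0) - o' I o i = 0 - o' I o i
              rw [if_neg p10.2]
            · show (if i ∈ S01 then (1 : ℝ) else 0) - o' I o i = 1 - o' I o i
              rw [if_pos p01.2]
            · show (if i ∈ S11 then (1 : ℝ) else 0) - o' I o i = 1 - o' I o i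
              rw [if_pos p11.2]
          · fin_cases u
            · exact e1
            · exact e2
            · exact e3
            · exact e4
      rw [hd] at hp
      have hdet : Matrix.det !![τ, τ - 1, τ - 1, τ;
            0 - o' I o a, 1 - o' I o a, 0 - o' I o a, 1 - o' I o a;
            0 - o' I o i, 0 - o' I o i, 1 - o' I o i, 1 - o' I o i;
            κ, κ, κ, κ] = -(2 * κ) := by
        simp [Matrix.det_succ_row_zero, Fin.sum_univ_succ, Fin.succAbove]
        ring
      rw [hdet, abs_neg, abs_mul] at hp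
      norm_num at hp
      linarith
    constructor
    · rintro ⟨q1, q2, q3, q4⟩
      have := key (1 - o' I o j) (by rw [if_pos q1]) (by rw [if_pos q2]) (by rw [if_pos q3])
        (by rw [if_pos q4])
      exact (le_abs_self _).trans this
    · rintro ⟨q1, q2, q3, q4⟩
      have := key (0 - o' I o j) (by rw [if_neg q1]) (by rw [if_neg q2]) (by rw [if_neg q3])
        (by rw [if_neg q4])
      rw [zero_sub, abs_neg] at this
      exact (le_abs_self _).trans this
  · intro S hS
    obtain ⟨x, _, rfl⟩ := Finset.mem_image.mp hS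
    exact Finset.filter_subset _ _
  · intro i hi
    unfold o'
    rw [if_pos hi]
    rcases ho i hi with h | h | h
    · by_cases hc : o i ≤ 1 / 2
      · rw [if_pos hc]; right; exact ⟨h.1, hc⟩
      · rw [if_neg hc]; right; constructor <;> linarith
    · left
      rw [h, if_pos (by norm_num)]
    · left
      rw [h, if_neg (by norm_num)]
      norm_num

end Pool.Agent.W135.SH.A
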